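import Pool.Agent.BEK.Stmts

/-!
# Squad BEK (MP_be01ff_an), row WPR: asymptotics of the products
-/

set_option autoImplicit false

namespace Pool.Agent.BEK.H6

open Set Filter Topology MeasureTheory
open scoped InnerProductSpace ENNReal ComplexConjugate
open Pool.Agent.BE01 Pool.Agent.BED Pool.Agent.BEJ Pool.Agent.BEK

noncomputable section

/-- the normalized function -/
def ww (x : ℝ) : ℂ :=
  ((2 * Real.sqrt (x / Real.pi) : ℝ) : ℂ) * Complex.exp (-(Real.pi / 4 * Complex.I)) * QQ 0 x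

theorem sq_prod {x y : ℝ} (hx : 0 ≤ x) :
    2 * Real.sqrt (x / Real.pi) * (2 * Real.sqrt (y / Real.pi)) =
      4 * Real.sqrt (x * y) / Real.pi := by
  have hpi : Real.sqrt Real.pi * Real.sqrt Real.pi = Real.pi :=
    Real.mul_self_sqrt Real.pi_pos.le
  have h1 : Real.sqrt (y / Real.pi) = Real.sqrt y / Real.sqrt Real.pi :=
    Real.sqrt_div' y Real.pi_pos.le
  have h2 : Real.sqrt (x / Real.pi) = Real.sqrt x / Real.sqrt Real.pi :=
    Real.sqrt_div' x Real.pi_pos.le
  rw [h1, h2, Real.sqrt_mul hx]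
  calc 2 * (Real.sqrt x / Real.sqrt Real.pi) * (2 * (Real.sqrt y / Real.sqrt Real.pi)) =
      4 * (Real.sqrt x * Real.sqrt y) / (Real.sqrt Real.pi * Real.sqrt Real.pi) := by ring
    _ = _ := by rw [hpi]

theorem conj_ww (x : ℝ) : conj (ww x) = ((2 * Real.sqrt (x / Real.pi) : ℝ) : ℂ) *
    Complex.exp (Real.pi / 4 * Complex.I) * conj (QQ 0 x) := by
  unfold ww
  rw [map_mul, map_mul, Complex.conj_ofReal, ← Complex.exp_conj]
  congr 3
  rw [map_neg, map_mul, Complex.conj_I]
  have h : conj ((Real.pi : ℂ) / 4) = (Real.pi : ℂ) / 4 := by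
    rw [map_div₀, Complex.conj_ofReal]
    congr 1
    exact Complex.conj_ofNat 4
  rw [h]
  ring

theorem prod_eq {x y : ℝ} (hx : 0 ≤ x) :
    ((4 * Real.sqrt (x * y) / Real.pi : ℝ) : ℂ) * (conj (HH x) * HH y) =
      Complex.exp ((y - x : ℝ) * Complex.I) * (conj (ww x) * ww y) := by
  have h1 : conj (HH x) = Complex.exp (-(x * Complex.I)) * conj (QQ 0 x) := by
    unfold HH
    rw [map_mul, ← Complex.exp_conj, map_mul, Complex.conj_ofReal, Complex.conj_I]
    congr 2
    ring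
  have h2 : Complex.exp ((y - x : ℝ) * Complex.I) =
      Complex.exp (-(x * Complex.I)) * Complex.exp (y * Complex.I) := by
    rw [← Complex.exp_add]
    congr 1
    push_cast
    ring
  have h3 : Complex.exp (Real.pi / 4 * Complex.I) * Complex.exp (-(Real.pi / 4 * Complex.I)) =
      1 := by
    rw [← Complex.exp_add, add_neg_cancel, Complex.exp_zero]
  rw [h1, h2, conj_ww, ← sq_prod hx]
  unfold HH ww
  push_cast
  linear_combination (-((2 * (Real.sqrt (x / Real.pi) : ℂ)) * (2 * (Real.sqrt (y / Real.pi) : ℂ)) *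
    Complex.exp (-(x * Complex.I)) * Complex.exp (y * Complex.I) * conj (QQ 0 x) * QQ 0 y)) * h3

/-- row WPR -/
theorem wpr (was : WasStmt) : WprStmt := by
  obtain ⟨C0, hC0⟩ := was
  obtain ⟨C1, hC1⟩ : ∃ C1 : ℝ, C1 = 1 + |C0| := ⟨_, rfl⟩
  have hC1p : 1 ≤ C1 := by
    rw [hC1]
    have := abs_nonneg C0
    linarith
  -- the remainder
  have hrem : ∀ x : ℝ, 1 ≤ x → ‖ww x - (1 - Complex.I / (8 * x))‖ ≤ C1 / x ^ 2 := by
    intro x hx
    have h1 := hC0 x hx
    have hx0 : 0 < x := by linarith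
    have h2 : ww x - (1 - Complex.I / (8 * x)) =
        (ww x - (1 - Complex.I / (8 * x) - 9 / (128 * (x : ℂ) ^ 2))) +
          (-(9 / (128 * (x : ℂ) ^ 2))) := by ring
    have h3 : ‖(-(9 / (128 * (x : ℂ) ^ 2)))‖ ≤ 1 / x ^ 2 := by
      rw [norm_neg, norm_div, norm_mul, norm_pow, Complex.norm_real, Real.norm_eq_abs,
        abs_of_pos hx0, Complex.norm_ofNat, Complex.norm_ofNat, div_le_div_iff₀ (by positivity)
        (by positivity)]
      nlinarith [sq_nonneg x]
    have h4 : C0 / x ^ 3 ≤ |C0| / x ^ 2 := by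
      rw [div_le_div_iff₀ (by positivity) (by positivity)]
      have h5 : C0 * x ^ 2 ≤ |C0| * x ^ 2 :=
        mul_le_mul_of_nonneg_right (le_abs_self C0) (by positivity)
      have h6 : |C0| * x ^ 2 ≤ |C0| * x ^ 3 :=
        mul_le_mul_of_nonneg_left (pow_le_pow_right₀ hx (by norm_num)) (abs_nonneg C0)
      linarith
    rw [h2]
    have h7 := norm_add_le (ww x - (1 - Complex.I / (8 * x) - 9 / (128 * (x : ℂ) ^ 2)))
      (-(9 / (128 * (x : ℂ) ^ 2)))
    have h8 : ‖ww x - (1 - Complex.I / (8 * x) - 9 / (128 * (x : ℂ) ^ 2))‖ ≤ C0 / x ^ 3 := h1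
    have h9 : C1 / x ^ 2 = 1 / x ^ 2 + |C0| / x ^ 2 := by
      rw [hC1]
      ring
    linarith
  have hi8 : ∀ x : ℝ, 1 ≤ x → ‖Complex.I / (8 * (x : ℂ))‖ ≤ 1 / 8 := by
    intro x hx
    have hx0 : 0 < x := by linarith
    rw [norm_div, Complex.norm_I, norm_mul, Complex.norm_real, Real.norm_eq_abs, abs_of_pos hx0,
      Complex.norm_ofNat, div_le_div_iff₀ (by positivity) (by positivity)]
    linarith
  have hwb : ∀ x : ℝ, 1 ≤ x → ‖ww x‖ ≤ 2 + C1 := by
    intro x hx
    have h1 := hrem x hx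
    have h2 : ww x = (ww x - (1 - Complex.I / (8 * x))) + (1 - Complex.I / (8 * x)) := by ring
    have h3 := norm_add_le (ww x - (1 - Complex.I / (8 * x))) (1 - Complex.I / (8 * x))
    rw [← h2] at h3
    have h4 := norm_sub_le (1 : ℂ) (Complex.I / (8 * x))
    rw [norm_one] at h4
    have h5 := hi8 x hx
    have h6 : C1 / x ^ 2 ≤ C1 := div_le_self (by linarith) (one_le_pow₀ hx)
    linarith
  -- the main estimate
  have hmain : ∀ x y : ℝ, 1 ≤ x → 1 ≤ y →
      ‖((4 * Real.sqrt (x * y) / Real.pi : ℝ) : ℂ) * (conj (HH x) * HH y) -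
        Complex.exp ((y - x : ℝ) * Complex.I) * (1 + Complex.I * (1 / (8 * x) - 1 / (8 * y) : ℝ))‖
        ≤ (1 + C1 * (2 + C1)) / x ^ 2 + (1 + C1 * (2 + C1)) / y ^ 2 := by
    intro x y hx hy
    have hx0 : 0 < x := by linarith
    have hy0 : 0 < y := by linarith
    have hxc : (x : ℂ) ≠ 0 := by exact_mod_cast hx0.ne'
    have hyc : (y : ℂ) ≠ 0 := by exact_mod_cast hy0.ne'
    rw [prod_eq hx0.le, ← mul_sub, norm_mul, Complex.norm_exp_ofReal_mul_I, one_mul]
    obtain ⟨r, hr⟩ : ∃ r : ℂ, r = ww x - (1 - Complex.I / (8 * x)) := ⟨_, rfl⟩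
    obtain ⟨t, ht⟩ : ∃ t : ℂ, t = ww y - (1 - Complex.I / (8 * y)) := ⟨_, rfl⟩
    have hrn : ‖r‖ ≤ C1 / x ^ 2 := by
      rw [hr]
      exact hrem x hx
    have htn : ‖t‖ ≤ C1 / y ^ 2 := by
      rw [ht]
      exact hrem y hy
    have e1 : conj (ww x) = 1 + Complex.I / (8 * x) + conj r := by
      have h8 : conj (8 * (x : ℂ)) = 8 * x := by
        rw [map_mul, Complex.conj_ofReal]
        congr 1
        exact Complex.conj_ofNat 8
      rw [hr, map_sub, map_sub, map_one, map_div₀, Complex.conj_I, h8]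
      ring
    have e2 : ww y = 1 - Complex.I / (8 * y) + t := by
      rw [ht]
      ring
    have e3 : conj (ww x) * ww y - (1 + Complex.I * (1 / (8 * x) - 1 / (8 * y) : ℝ)) =
        1 / (64 * x * y) + (conj r * ww y + (1 + Complex.I / (8 * x)) * t) := by
      have h9 : conj (ww x) * ww y = (1 + Complex.I / (8 * x)) * (1 - Complex.I / (8 * y)) +
          (conj r * ww y + (1 + Complex.I / (8 * x)) * t) := by
        rw [e1]
        linear_combination (1 + Complex.I / (8 * x)) * e2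
      rw [h9]
      push_cast
      have h10 : (1 + Complex.I / (8 * (x : ℂ))) * (1 - Complex.I / (8 * (y : ℂ))) =
          1 + Complex.I * (1 / (8 * (x : ℂ)) - 1 / (8 * (y : ℂ))) + 1 / (64 * x * y) := by
        have h11 : (1 : ℂ) / (64 * x * y) = -(Complex.I ^ 2) / (64 * x * y) := by
          rw [Complex.I_sq]
          ring
        rw [h11]
        field_simp
        ring
      rw [h10]
      ring
    rw [e3]
    have n1 := norm_add_le ((1 : ℂ) / (64 * x * y))
      (conj r * ww y + (1 + Complex.I / (8 * x)) * t)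
    have n2 := norm_add_le (conj r * ww y) ((1 + Complex.I / (8 * x)) * t)
    have n3 : ‖conj r * ww y‖ ≤ C1 / x ^ 2 * (2 + C1) := by
      rw [norm_mul, Complex.norm_conj]
      exact mul_le_mul hrn (hwb y hy) (norm_nonneg _) (by positivity)
    have n4 : ‖(1 + Complex.I / (8 * x)) * t‖ ≤ 2 * (C1 / y ^ 2) := by
      rw [norm_mul]
      have h12 : ‖(1 + Complex.I / (8 * (x : ℂ)))‖ ≤ 2 := by
        have := norm_add_le (1 : ℂ) (Complex.I / (8 * x))
        rw [norm_one] at this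
        have := hi8 x hx
        linarith
      exact mul_le_mul h12 htn (norm_nonneg _) (by norm_num)
    have n5 : ‖(1 : ℂ) / (64 * x * y)‖ ≤ 1 / x ^ 2 + 1 / y ^ 2 := by
      rw [norm_div, norm_one, norm_mul, norm_mul, Complex.norm_real, Complex.norm_real,
        Real.norm_eq_abs, Real.norm_eq_abs, abs_of_pos hx0, abs_of_pos hy0, Complex.norm_ofNat]
      have h13 : 1 / (64 * x * y) ≤ 1 / (x * y) := by
        apply one_div_le_one_div_of_le (by positivity)
        nlinarith [mul_pos hx0 hy0]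
      have h14 : 1 / (x * y) ≤ 1 / x ^ 2 + 1 / y ^ 2 := by
        have h15 : 1 / (x * y) = (1 / x) * (1 / y) := by
          field_simp
        have h16 : 1 / x ^ 2 = (1 / x) ^ 2 := by
          field_simp
        have h17 : 1 / y ^ 2 = (1 / y) ^ 2 := by
          field_simp
        rw [h15, h16, h17]
        nlinarith [sq_nonneg (1 / x - 1 / y), sq_nonneg (1 / x), sq_nonneg (1 / y)]
      exact h13.trans h14
    have n6 : 2 * (C1 / y ^ 2) ≤ C1 * (2 + C1) / y ^ 2 := by
      rw [← mul_div_assoc]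
      apply div_le_div_of_nonneg_right _ (by positivity)
      nlinarith
    have n7 : C1 / x ^ 2 * (2 + C1) = C1 * (2 + C1) / x ^ 2 := by ring
    have n8 : (1 + C1 * (2 + C1)) / x ^ 2 = 1 / x ^ 2 + C1 * (2 + C1) / x ^ 2 := by ring
    have n9 : (1 + C1 * (2 + C1)) / y ^ 2 = 1 / y ^ 2 + C1 * (2 + C1) / y ^ 2 := by ring
    linarith
  obtain ⟨C, hC⟩ : ∃ C : ℝ, C = 1 + C1 * (2 + C1) := ⟨_, rfl⟩
  have hCp : 0 < C := by
    rw [hC]
    positivity
  rw [← hC] at hmain
  refine ⟨C, 1 + 2 * C, hCp, by linarith, fun x y hx hy => hmain x y (by linarith) (by linarith),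
    fun x hx h0 => ?_⟩
  have hx1 : 1 ≤ x := by linarith
  have h1 := hmain x x hx1 hx1
  rw [h0, mul_zero, mul_zero, sub_self, sub_self, Complex.ofReal_zero, zero_mul,
    Complex.exp_zero, mul_zero, add_zero, zero_sub, norm_neg, one_mul, norm_one] at h1
  have hx2 : 0 < x ^ 2 := by positivity
  have h2 : C / x ^ 2 + C / x ^ 2 = 2 * C / x ^ 2 := by ring
  rw [h2, le_div_iff₀ hx2] at h1
  nlinarith

end

end Pool.Agent.BEK.H6
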